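import Pool.Agent.TH956.Main

set_option autoImplicit false

/-!
# Monochromatic patterns `x, y, xy, x + p(y)` in the rationals

Affirmative answer to Q1 of MP_556fef_co.

Outline of the proof.  A uniform polynomial van der Waerden theorem along finite sums is proved by
colour focusing.  It gives a version for a game with several levels.  With this version and
Folkman's theorem one builds nonzero rationals `u 0, ..., u (n - 1)` such that `u_B * u_l` and
`u_B * u_l + f (u_{B'} * u_k)` have the same colour whenever `k < l` and the indices in `B` and
`B'` are smaller than `k`, where `u_B` is the product of the `u i` with `i` in `B`.  By Ramsey's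
theorem the colour of `u_B` may be assumed to depend only on the size of `B`, and Schur's theorem
finishes the proof.
-/

namespace Pool.Agent.Results.MP_556fef_co.PolynomialShifts

open Polynomial

/-- For every finite set `P` of integer polynomials vanishing at `0` and every finite colouring `c`
of the rationals there are nonzero rationals `x`, `y` such that `x`, `y`, `x * y` and all
`x + p(y)` with `p` in `P` have the same colour. -/
theorem result (P : Finset ℤ[X]) (hP : ∀ p ∈ P, p.eval 0 = 0) (r : ℕ) (c : ℚ → Fin r) :
    ∃ x y : ℚ, x ≠ 0 ∧ y ≠ 0 ∧ c y = c x ∧ c (x * y) = c x ∧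
      ∀ p ∈ P, c (x + aeval y p) = c x := by
  classical
  obtain ⟨x, y, hx, hy, h1, h2, h3⟩ := TH956.pattern c (P.image (Polynomial.map (Int.castRingHom ℚ)))
    (fun f hf => by
      obtain ⟨p, hp, rfl⟩ := Finset.mem_image.1 hf
      have h := hP p hp
      rw [← coeff_zero_eq_eval_zero] at h ⊢
      rw [coeff_map, h, map_zero])
  refine ⟨x, y, hx, hy, h1, h2, fun p hp => ?_⟩
  have h := h3 _ (Finset.mem_image_of_mem _ hp)
  rw [eval_map] at h
  rw [aeval_def, algebraMap_int_eq]
  exact h

end Pool.Agent.Results.MP_556fef_co.PolynomialShifts
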